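import Mathlib

/-!
Dirac's construction (the generalisation of the construction of Hajos by gluing along complete
subgraphs) does not always preserve `k`-criticality: for every `k ≥ 5` and every
`3 ≤ h ≤ k - 2` there are `k`-critical graphs and data for which the result is not `k`-critical.

The base example (`k = 5`, `h = 3`) is a `5`-critical graph `B` on ten vertices with a triangle
`x v w` (vertices `0 1 2`) and a vertex `y` (vertex `3`) adjacent to `x`, such that in every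
`4`-colouring of `B - vw - xy` one has `y = x` if `v ≠ w` and `y = v` if `v = w`.
-/

set_option autoImplicit false

namespace Pool.Agent.Results.MP_e06427_co.DiracNotCritical

open Sum

/-- `G` is `k`-critical: its chromatic number is `k` and every proper subgraph of `G` has
chromatic number less than `k`. -/
def IsCritical {V : Type} (G : SimpleGraph V) (k : ℕ) : Prop :=
  G.chromaticNumber = (k : ℕ∞) ∧
    ∀ G' : G.Subgraph, G' ≠ ⊤ → G'.coe.chromaticNumber < (k : ℕ∞)

/-- The position in the glued vertex set of a vertex `b` of the second graph: the vertices of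
`H₂` are identified with vertices of `H₁` via `φ`, the other ones are kept. -/
noncomputable def place {V₁ V₂ : Type} (H₁ : Finset V₁) (H₂ : Finset V₂) (φ : H₁ ≃ H₂) (b : V₂) :
    V₁ ⊕ {b : V₂ // b ∉ H₂} :=
  open Classical in
  if hb : b ∈ H₂ then inl (φ.symm ⟨b, hb⟩ : V₁) else inr ⟨b, hb⟩

/-- The data of Dirac's construction with parameters `k` and `h`: two finite `k`-critical graphs
`G₁`, `G₂`, vertex sets `H₁`, `H₂` of complete `h`-graphs in them, a bijection `φ : H₁ ≃ H₂` with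
`φ x₁ = x₂`, where `x₁ ∈ H₁`, and vertices `yᵢ ∉ Hᵢ` adjacent to `xᵢ` in `Gᵢ`. -/
structure DiracData (k h : ℕ) where
  /-- vertex set of the first graph -/
  V₁ : Type
  /-- vertex set of the second graph -/
  V₂ : Type
  finite₁ : Finite V₁
  finite₂ : Finite V₂
  /-- the first graph -/
  G₁ : SimpleGraph V₁
  /-- the second graph -/
  G₂ : SimpleGraph V₂
  critical₁ : IsCritical G₁ k
  critical₂ : IsCritical G₂ k
  /-- vertex set of the complete `h`-graph in the first graph -/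
  H₁ : Finset V₁
  /-- vertex set of the complete `h`-graph in the second graph -/
  H₂ : Finset V₂
  clique₁ : G₁.IsNClique h H₁
  clique₂ : G₂.IsNClique h H₂
  /-- the identification -/
  φ : H₁ ≃ H₂
  /-- the chosen vertex of `H₁` -/
  x₁ : V₁
  /-- the chosen vertex of `H₂` -/
  x₂ : V₂
  /-- the chosen neighbour of `x₁` -/
  y₁ : V₁
  /-- the chosen neighbour of `x₂` -/
  y₂ : V₂
  mem_x₁ : x₁ ∈ H₁
  map_x₁ : (φ ⟨x₁, mem_x₁⟩ : V₂) = x₂
  notMem_y₁ : y₁ ∉ H₁
  notMem_y₂ : y₂ ∉ H₂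
  adj₁ : G₁.Adj x₁ y₁
  adj₂ : G₂.Adj x₂ y₂

/-- The graph produced by Dirac's construction: identify `H₁` with `H₂` via `φ`, delete the edges
`x₁y₁` and `x₂y₂`, and add the edge `y₁y₂`. -/
noncomputable def DiracData.glue {k h : ℕ} (D : DiracData k h) :
    SimpleGraph (D.V₁ ⊕ {b : D.V₂ // b ∉ D.H₂}) :=
  SimpleGraph.fromRel fun p q =>
    (∃ a a', (D.G₁.deleteEdges {s(D.x₁, D.y₁)}).Adj a a' ∧ p = inl a ∧ q = inl a') ∨
    (∃ b b', (D.G₂.deleteEdges {s(D.x₂, D.y₂)}).Adj b b' ∧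
      p = place D.H₁ D.H₂ D.φ b ∧ q = place D.H₁ D.H₂ D.φ b') ∨
    (p = inl D.y₁ ∧ q = place D.H₁ D.H₂ D.φ D.y₂)

/-! ### The base graph -/

/-- edges of the base graph -/
def edges : List (Fin 10 × Fin 10) :=
  [(0, 1), (0, 2), (0, 3), (0, 8), (1, 2), (1, 4), (1, 6), (1, 8), (1, 9), (2, 4), (2, 5), (2, 7),
   (3, 5), (3, 6), (3, 7), (3, 8), (3, 9), (4, 5), (4, 7), (4, 9), (5, 6), (5, 7), (6, 8), (7, 9),
   (8, 9)]

/-- adjacency of the base graph -/
def badj (a b : Fin 10) : Bool := edges.contains (a, b) || edges.contains (b, a)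

/-- the base graph -/
def B : SimpleGraph (Fin 10) where
  Adj a b := badj a b = true
  symm := ⟨by decide⟩
  loopless := ⟨by decide⟩

set_option maxRecDepth 100000 in
set_option synthInstance.maxSize 100000 in
theorem forcing_aux : ∀ x v w y : Fin 4, x ≠ v → x ≠ w → ∀ c4 : Fin 4, v ≠ c4 → w ≠ c4 →
    ∀ c5 : Fin 4, w ≠ c5 → y ≠ c5 → c4 ≠ c5 →
    ∀ c7 : Fin 4, w ≠ c7 → y ≠ c7 → c4 ≠ c7 → c5 ≠ c7 →
    ∀ c9 : Fin 4, v ≠ c9 → y ≠ c9 → c4 ≠ c9 → c7 ≠ c9 →
    ∀ c8 : Fin 4, x ≠ c8 → v ≠ c8 → y ≠ c8 → c8 ≠ c9 →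
    ∀ c6 : Fin 4, v ≠ c6 → y ≠ c6 → c5 ≠ c6 → c6 ≠ c8 →
    (v ≠ w → y = x) ∧ (v = w → y = v) := by
  decide

/-- In every `4`-colouring of `B - vw - xy` one has `y = x` if `v ≠ w` and `y = v` otherwise. -/
theorem forcing (c : Fin 10 → Fin 4)
    (hc : ∀ a b, B.Adj a b → s(a, b) ≠ s(0, 3) → s(a, b) ≠ s(1, 2) → c a ≠ c b) :
    (c 1 ≠ c 2 → c 3 = c 0) ∧ (c 1 = c 2 → c 3 = c 1) := by
  have h : ∀ a b : Fin 10, badj a b = true → s(a, b) ≠ s(0, 3) → s(a, b) ≠ s(1, 2) → c a ≠ c b :=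
    hc
  refine forcing_aux (c 0) (c 1) (c 2) (c 3) ?_ ?_ (c 4) ?_ ?_ (c 5) ?_ ?_ ?_ (c 7) ?_ ?_ ?_ ?_
    (c 9) ?_ ?_ ?_ ?_ (c 8) ?_ ?_ ?_ ?_ (c 6) ?_ ?_ ?_ ?_
  all_goals exact h _ _ (by decide) (by decide) (by decide)

/-- For every edge of `B` a `4`-colouring of `B` without that edge. -/
def table : List ((Fin 10 × Fin 10) × List (Fin 4)) :=
  [((0, 1), [0, 0, 1, 2, 2, 0, 1, 3, 3, 1]),
   ((0, 2), [0, 1, 0, 2, 2, 1, 0, 3, 3, 0]),
   ((0, 3), [0, 1, 2, 0, 0, 1, 2, 3, 3, 2]),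
   ((0, 8), [0, 1, 2, 3, 3, 0, 2, 1, 0, 2]),
   ((1, 2), [0, 1, 1, 1, 0, 2, 0, 3, 3, 2]),
   ((1, 4), [0, 1, 2, 1, 1, 0, 2, 3, 3, 0]),
   ((1, 6), [0, 1, 2, 2, 3, 0, 1, 1, 3, 0]),
   ((1, 8), [0, 1, 2, 2, 0, 3, 0, 1, 1, 3]),
   ((1, 9), [0, 1, 2, 2, 0, 1, 0, 3, 3, 1]),
   ((2, 4), [0, 1, 2, 1, 2, 0, 2, 3, 3, 0]),
   ((2, 5), [0, 1, 2, 1, 0, 2, 0, 3, 3, 2]),
   ((2, 7), [0, 1, 2, 1, 0, 3, 0, 2, 2, 3]),
   ((3, 5), [0, 1, 2, 1, 0, 1, 0, 3, 3, 2]),
   ((3, 6), [0, 1, 2, 2, 3, 0, 2, 1, 3, 0]),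
   ((3, 7), [0, 1, 2, 1, 0, 3, 0, 1, 2, 3]),
   ((3, 8), [0, 1, 2, 2, 0, 3, 0, 1, 2, 3]),
   ((3, 9), [0, 1, 2, 2, 0, 1, 0, 3, 3, 2]),
   ((4, 5), [0, 1, 2, 1, 0, 0, 2, 3, 3, 2]),
   ((4, 7), [0, 1, 2, 1, 0, 3, 0, 0, 2, 3]),
   ((4, 9), [0, 1, 2, 2, 0, 1, 0, 3, 3, 0]),
   ((5, 6), [0, 1, 2, 2, 3, 0, 0, 1, 3, 0]),
   ((5, 7), [0, 1, 2, 1, 0, 3, 0, 3, 3, 2]),
   ((6, 8), [0, 1, 2, 2, 3, 0, 3, 1, 3, 0]),
   ((7, 9), [0, 1, 2, 2, 3, 1, 0, 0, 3, 0]),
   ((8, 9), [0, 1, 2, 2, 0, 3, 0, 1, 3, 3])]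

set_option maxRecDepth 100000 in
theorem table_ok : ∀ t ∈ table, ∀ a b : Fin 10, badj a b = true → s(a, b) ≠ s(t.1.1, t.1.2) →
    t.2.getD a.1 0 ≠ t.2.getD b.1 0 := by
  decide

set_option maxRecDepth 100000 in
theorem table_complete : ∀ a b : Fin 10, badj a b = true →
    ∃ t ∈ table, s(t.1.1, t.1.2) = s(a, b) := by
  decide

theorem edge_colouring (a b : Fin 10) (h : B.Adj a b) :
    ∃ c : Fin 10 → Fin 4, ∀ a' b', B.Adj a' b' → s(a', b') ≠ s(a, b) → c a' ≠ c b' := by
  obtain ⟨t, ht, hab⟩ := table_complete a b h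
  exact ⟨fun i => t.2.getD i.1 0, fun a' b' h' hne => table_ok t ht a' b' h' (hab ▸ hne)⟩

theorem exists_nbr : ∀ a : Fin 10, ∃ b, badj a b = true := by decide

/-- Every vertex-deleted subgraph of `B` is `4`-colourable. -/
theorem vertex_colouring (a : Fin 10) :
    ∃ c : Fin 10 → Fin 4, ∀ a' b', B.Adj a' b' → a' ≠ a → b' ≠ a → c a' ≠ c b' := by
  obtain ⟨b, hb⟩ := exists_nbr a
  obtain ⟨c, hc⟩ := edge_colouring a b hb
  refine ⟨c, fun a' b' h h1 h2 => hc a' b' h fun he => ?_⟩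
  rcases Sym2.eq_iff.1 he with ⟨h3, _⟩ | ⟨_, h3⟩
  · exact h1 h3
  · exact h2 h3

/-! ### The join with a complete graph -/

/-- the join of the base graph with the complete graph on `m` vertices -/
def J (m : ℕ) : SimpleGraph (Fin 10 ⊕ Fin m) where
  Adj p q := match p, q with
    | inl a, inl b => B.Adj a b
    | inr i, inr j => i ≠ j
    | inl _, inr _ => True
    | inr _, inl _ => True
  symm := ⟨by
    rintro (a | i) (b | j) h
    · exact B.symm.symm a b h
    · trivial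
    · trivial
    · exact Ne.symm h⟩
  loopless := ⟨by
    rintro (a | i) h
    · exact B.loopless.irrefl a h
    · exact h rfl⟩

theorem forcing_J (m : ℕ) (c : Fin 10 ⊕ Fin m → Fin (4 + m))
    (hc : ∀ p q, (J m).Adj p q → s(p, q) ≠ s(inl 0, inl 3) → s(p, q) ≠ s(inl 1, inl 2) →
      c p ≠ c q) :
    (c (inl 1) ≠ c (inl 2) → c (inl 3) = c (inl 0)) ∧
      (c (inl 1) = c (inl 2) → c (inl 3) = c (inl 1)) := by
  classical
  have hinj : Function.Injective (fun i : Fin m => c (inr i)) := by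
    intro i j hij
    by_contra hne
    exact hc (inr i) (inr j) hne (by simp) (by simp) hij
  set S : Finset (Fin (4 + m)) := Finset.univ \ (Finset.univ.image fun i : Fin m => c (inr i))
    with hS
  have hcard : S.card = 4 := by
    rw [hS, Finset.card_sdiff_of_subset (Finset.subset_univ _),
      Finset.card_image_of_injective _ hinj]
    simp
  have hmem : ∀ a : Fin 10, c (inl a) ∈ S := by
    intro a
    simp only [hS, Finset.mem_sdiff, Finset.mem_univ, Finset.mem_image, true_and, not_exists]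
    intro i hi
    exact hc (inr i) (inl a) trivial (by simp) (by simp) hi
  let e : S ≃ Fin 4 := S.equivFin.trans (finCongr hcard)
  let d : Fin 10 → Fin 4 := fun a => e ⟨c (inl a), hmem a⟩
  have hd : ∀ a b, d a = d b ↔ c (inl a) = c (inl b) := by
    intro a b
    simp only [d, e.apply_eq_iff_eq, Subtype.mk.injEq]
  have := forcing d (by
    intro a b hab h1 h2 h3
    refine hc (inl a) (inl b) hab ?_ ?_ ((hd a b).1 h3)
    · intro h4
      apply h1
      simpa [Sym2.eq_iff] using h4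
    · intro h4
      apply h2
      simpa [Sym2.eq_iff] using h4)
  simpa only [ne_eq, hd] using this

/-- `J m` is not `(4 + m)`-colourable. -/
theorem J_not_colorable (m : ℕ) : ¬ (J m).Colorable (4 + m) := by
  rintro ⟨C⟩
  have h := forcing_J m C (fun p q hpq _ _ => C.valid hpq)
  have h12 : C (inl 1) ≠ C (inl 2) := C.valid (show B.Adj 1 2 by exact (by decide : badj 1 2 = true))
  have h03 : C (inl 0) ≠ C (inl 3) := C.valid (show B.Adj 0 3 by exact (by decide : badj 0 3 = true))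
  exact h03 (h.1 h12).symm

theorem exists_fin_colouring {V : Type} (m : ℕ) (R : V → V → Prop) (c : V → Fin 4 ⊕ Fin m)
    (hc : ∀ p q, R p q → c p ≠ c q) : ∃ c : V → Fin (4 + m), ∀ p q, R p q → c p ≠ c q :=
  ⟨fun p => finSumFinEquiv (c p), fun p q h he => hc p q h (finSumFinEquiv.injective he)⟩

/-- every edge-deleted subgraph of `J m` is `(4 + m)`-colourable -/
theorem J_edge_colouring (m : ℕ) (p q : Fin 10 ⊕ Fin m) (h : (J m).Adj p q) :
    ∃ c : Fin 10 ⊕ Fin m → Fin (4 + m),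
      ∀ p' q', (J m).Adj p' q' ∧ s(p', q') ≠ s(p, q) → c p' ≠ c q' := by
  classical
  -- the case of a vertex of the base graph and a vertex of the complete graph
  have mixed : ∀ (a : Fin 10) (i : Fin m), ∃ c : Fin 10 ⊕ Fin m → Fin (4 + m),
      ∀ p' q', (J m).Adj p' q' ∧ s(p', q') ≠ s(inl a, inr i) → c p' ≠ c q' := by
    intro a i
    obtain ⟨c, hc⟩ := vertex_colouring a
    refine exists_fin_colouring m _
      (Sum.elim (fun b => if b = a then inr i else inl (c b)) (fun j => inr j)) ?_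
    rintro (a' | i') (b' | j') ⟨h1, h2⟩ h3
    · simp only [Sum.elim_inl] at h3
      split_ifs at h3 with h4 h5 h5
      · subst h4; subst h5
        exact B.loopless.irrefl _ h1
      · exact hc a' b' h1 h4 h5 (by simpa using h3)
    · simp only [Sum.elim_inl, Sum.elim_inr] at h3
      split_ifs at h3 with h4
      · subst h4
        rw [Sum.inr.injEq] at h3
        subst h3
        exact h2 rfl
    · simp only [Sum.elim_inl, Sum.elim_inr] at h3
      split_ifs at h3 with h4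
      · subst h4
        rw [Sum.inr.injEq] at h3
        subst h3
        exact h2 Sym2.eq_swap
    · simp only [Sum.elim_inr, Sum.inr.injEq] at h3
      exact h1 h3
  rcases p with a | i <;> rcases q with b | j
  · obtain ⟨c, hc⟩ := edge_colouring a b h
    refine exists_fin_colouring m _ (Sum.elim (fun b => inl (c b)) (fun j => inr j)) ?_
    rintro (a' | i') (b' | j') ⟨h1, h2⟩ h3
    · simp only [Sum.elim_inl, Sum.inl.injEq] at h3
      refine hc a' b' h1 (fun h4 => h2 ?_) h3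
      rcases Sym2.eq_iff.1 h4 with ⟨h5, h6⟩ | ⟨h5, h6⟩
      · rw [h5, h6]
      · rw [h5, h6, Sym2.eq_swap]
    · simp at h3
    · simp at h3
    · simp only [Sum.elim_inr, Sum.inr.injEq] at h3
      exact h1 h3
  · exact mixed a j
  · obtain ⟨c, hc⟩ := mixed b i
    exact ⟨c, fun p' q' h' => hc p' q' ⟨h'.1, fun h2 => h'.2 (h2.trans Sym2.eq_swap)⟩⟩
  · obtain ⟨c, hc⟩ := vertex_colouring 0
    have hij : i ≠ j := h
    refine exists_fin_colouring m _
      (Sum.elim (fun b => if b = 0 then inr j else inl (c b))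
        (fun l => if l = j then inr i else inr l)) ?_
    rintro (a' | i') (b' | j') ⟨h1, h2⟩ h3
    · simp only [Sum.elim_inl] at h3
      split_ifs at h3 with h4 h5 h5
      · subst h4; subst h5
        exact B.loopless.irrefl _ h1
      · exact hc a' b' h1 h4 h5 (by simpa using h3)
    · simp only [Sum.elim_inl, Sum.elim_inr] at h3
      split_ifs at h3 with h4 h5 h5
      · exact hij (Sum.inr.inj h3).symm
      · exact h5 (Sum.inr.inj h3).symm
    · simp only [Sum.elim_inl, Sum.elim_inr] at h3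
      split_ifs at h3 with h4 h5 h5
      · exact hij (Sum.inr.inj h3)
      · exact h4 (Sum.inr.inj h3)
    · simp only [Sum.elim_inr] at h3
      split_ifs at h3 with h4 h5 h5
      · exact h1 (h4.trans h5.symm)
      · rw [Sum.inr.injEq] at h3
        subst h3; subst h4
        exact h2 Sym2.eq_swap
      · rw [Sum.inr.injEq] at h3
        subst h3; subst h5
        exact h2 rfl
      · exact h1 (Sum.inr.inj h3)

theorem J_nbr (m : ℕ) (p : Fin 10 ⊕ Fin m) : ∃ q, (J m).Adj p q := by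
  rcases p with a | i
  · obtain ⟨b, hb⟩ := exists_nbr a
    exact ⟨inl b, hb⟩
  · exact ⟨inl 0, trivial⟩

theorem J_colorable (m : ℕ) : (J m).Colorable (4 + m + 1) := by
  classical
  obtain ⟨c, hc⟩ := J_edge_colouring m (inl 0) (inl 1)
    (show B.Adj 0 1 by exact (by decide : badj 0 1 = true))
  refine ⟨SimpleGraph.Coloring.mk
    (fun p => if p = inl 0 then Fin.last (4 + m) else (c p).castSucc) ?_⟩
  intro p q hpq h
  split_ifs at h with h1 h2 h2
  · exact (J m).loopless.irrefl q (by rw [h1, ← h2] at hpq; exact hpq)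
  · exact (Fin.castSucc_lt_last (c q)).ne' h
  · exact (Fin.castSucc_lt_last (c p)).ne h
  · refine hc p q ⟨hpq, fun h3 => ?_⟩ (Fin.castSucc_injective _ h)
    rcases Sym2.eq_iff.1 h3 with ⟨h4, _⟩ | ⟨_, h4⟩
    · exact h1 h4
    · exact h2 h4

theorem J_critical (m : ℕ) : IsCritical (J m) (4 + m + 1) := by
  refine ⟨?_, ?_⟩
  · have := (SimpleGraph.chromaticNumber_eq_iff_colorable_not_colorable (G := J m)
      (n := 4 + m)).2 ⟨J_colorable m, J_not_colorable m⟩
    rw [this]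
    norm_cast
  · intro G' hG'
    have key : ∃ p q, (J m).Adj p q ∧ ¬ G'.Adj p q := by
      by_contra hcon
      push Not at hcon
      apply hG'
      refine SimpleGraph.Subgraph.ext ?_ ?_
      · ext p
        obtain ⟨q, hq⟩ := J_nbr m p
        simp [G'.edge_vert (hcon p q hq)]
      · ext p q
        simp only [SimpleGraph.Subgraph.top_adj]
        exact ⟨fun h => G'.adj_sub h, fun h => hcon p q h⟩
    obtain ⟨p, q, hpq, hn⟩ := key
    obtain ⟨c, hc⟩ := J_edge_colouring m p q hpq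
    have hcol : G'.coe.Colorable (4 + m) := by
      refine ⟨SimpleGraph.Coloring.mk (fun v => c v.1) ?_⟩
      intro a b hab
      have hab' : G'.Adj a.1 b.1 := hab
      refine hc a.1 b.1 ⟨G'.adj_sub hab', fun h => hn ?_⟩
      rcases Sym2.eq_iff.1 h with ⟨h1, h2⟩ | ⟨h1, h2⟩
      · rw [← h1, ← h2]; exact hab'
      · rw [← h1, ← h2]; exact hab'.symm
    refine lt_of_le_of_lt hcol.chromaticNumber_le ?_
    exact_mod_cast Nat.lt_succ_self (4 + m)

/-! ### The glued graph -/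

/-- the vertex set of the complete subgraph -/
def HH (m j : ℕ) : Finset (Fin 10 ⊕ Fin m) :=
  {inl 0, inl 1, inl 2} ∪ (Finset.univ.filter fun i : Fin m => i.1 < j).map ⟨inr, Sum.inr_injective⟩

theorem HH_clique (m j : ℕ) (hj : j ≤ m) : (J m).IsNClique (3 + j) (HH m j) := by
  classical
  refine ⟨?_, ?_⟩
  · intro p hp q hq hpq
    simp only [HH, Finset.coe_union, Set.mem_union, Finset.mem_coe, Finset.mem_insert,
      Finset.mem_singleton, Finset.mem_map, Finset.mem_filter, Finset.mem_univ, true_and,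
      Function.Embedding.coeFn_mk] at hp hq
    have h01 : (J m).Adj (inl 0) (inl 1) :=
      show B.Adj 0 1 by exact (by decide : badj 0 1 = true)
    have h02 : (J m).Adj (inl 0) (inl 2) :=
      show B.Adj 0 2 by exact (by decide : badj 0 2 = true)
    have h12 : (J m).Adj (inl 1) (inl 2) :=
      show B.Adj 1 2 by exact (by decide : badj 1 2 = true)
    rcases hp with (rfl | rfl | rfl) | ⟨i, _, rfl⟩ <;>
    rcases hq with (rfl | rfl | rfl) | ⟨i', _, rfl⟩ <;>
    first
      | exact absurd rfl hpq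
      | assumption
      | exact h01.symm
      | exact h02.symm
      | exact h12.symm
      | trivial
      | exact fun h => hpq (by rw [h])
  · rw [HH, Finset.card_union_of_disjoint, Finset.card_map]
    · have h1 : (Finset.univ.filter fun i : Fin m => i.1 < j).card = j := by
        have : (Finset.univ.filter fun i : Fin m => i.1 < j) =
            (Finset.univ : Finset (Fin j)).map (Fin.castLEEmb hj) := by
          ext i
          simp only [Finset.mem_filter, Finset.mem_univ, true_and, Finset.mem_map]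
          constructor
          · intro h
            exact ⟨⟨i.1, h⟩, by ext; simp⟩
          · rintro ⟨a, rfl⟩
            simp
        rw [this]
        simp
      rw [h1]
      congr 1
    · rw [Finset.disjoint_left]
      intro p hp hq
      simp only [Finset.mem_insert, Finset.mem_singleton, Finset.mem_map] at hp hq
      obtain ⟨i, _, rfl⟩ := hq
      simp at hp

/-- The data for `k = 5 + m`, `h = 3 + j`. -/
def data (m j : ℕ) (hj : j ≤ m) : DiracData (4 + m + 1) (3 + j) where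
  V₁ := Fin 10 ⊕ Fin m
  V₂ := Fin 10 ⊕ Fin m
  finite₁ := inferInstance
  finite₂ := inferInstance
  G₁ := J m
  G₂ := J m
  critical₁ := J_critical m
  critical₂ := J_critical m
  H₁ := HH m j
  H₂ := HH m j
  clique₁ := HH_clique m j hj
  clique₂ := HH_clique m j hj
  φ := Equiv.refl _
  x₁ := inl 0
  x₂ := inl 0
  y₁ := inl 3
  y₂ := inl 3
  mem_x₁ := by simp [HH]
  map_x₁ := rfl
  notMem_y₁ := by simp [HH]
  notMem_y₂ := by simp [HH]
  adj₁ := show B.Adj 0 3 by exact (by decide : badj 0 3 = true)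
  adj₂ := show B.Adj 0 3 by exact (by decide : badj 0 3 = true)

theorem place_refl_mem {V : Type} (H : Finset V) (b : V) (hb : b ∈ H) :
    place H H (Equiv.refl _) b = inl b := by
  simp [place, hb]

theorem place_refl_notMem {V : Type} (H : Finset V) (b : V) (hb : b ∉ H) :
    place H H (Equiv.refl _) b = inr ⟨b, hb⟩ := by
  simp [place, hb]

theorem place_refl_inj {V : Type} (H : Finset V) :
    Function.Injective (place H H (Equiv.refl _)) := by
  intro b b' h
  by_cases hb : b ∈ H <;> by_cases hb' : b' ∈ H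
  · rw [place_refl_mem H b hb, place_refl_mem H b' hb'] at h
    exact Sum.inl.inj h
  · rw [place_refl_mem H b hb, place_refl_notMem H b' hb'] at h
    cases h
  · rw [place_refl_notMem H b hb, place_refl_mem H b' hb'] at h
    cases h
  · rw [place_refl_notMem H b hb, place_refl_notMem H b' hb'] at h
    exact congrArg Subtype.val (Sum.inr.inj h)

/-- The glued graph of the example. -/
noncomputable def GG (m j : ℕ) (hj : j ≤ m) :
    SimpleGraph ((Fin 10 ⊕ Fin m) ⊕ {b : Fin 10 ⊕ Fin m // b ∉ HH m j}) :=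
  (data m j hj).glue

/-- The embedding of the second copy. -/
noncomputable def pl (m j : ℕ) (a : Fin 10 ⊕ Fin m) :
    (Fin 10 ⊕ Fin m) ⊕ {b : Fin 10 ⊕ Fin m // b ∉ HH m j} :=
  place (HH m j) (HH m j) (Equiv.refl _) a

theorem GG_adj (m j : ℕ) (hj : j ≤ m)
    (p q : (Fin 10 ⊕ Fin m) ⊕ {b : Fin 10 ⊕ Fin m // b ∉ HH m j}) (hpq : p ≠ q)
    (h : (∃ a a', ((J m).deleteEdges {s(inl 0, inl 3)}).Adj a a' ∧ p = inl a ∧ q = inl a') ∨
    (∃ b b', ((J m).deleteEdges {s(inl 0, inl 3)}).Adj b b' ∧ p = pl m j b ∧ q = pl m j b') ∨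
    (p = inl (inl 3) ∧ q = pl m j (inl 3))) : (GG m j hj).Adj p q :=
  (SimpleGraph.fromRel_adj _ _ _).2 ⟨hpq, Or.inl h⟩

theorem not_critical (m j : ℕ) (hj : j ≤ m) : ¬ IsCritical (GG m j hj) (4 + m + 1) := by
  classical
  rintro ⟨-, hcrit⟩
  have m0 : (inl 0 : Fin 10 ⊕ Fin m) ∈ HH m j := by simp [HH]
  have m1 : (inl 1 : Fin 10 ⊕ Fin m) ∈ HH m j := by simp [HH]
  have m2 : (inl 2 : Fin 10 ⊕ Fin m) ∈ HH m j := by simp [HH]
  have m3 : (inl 3 : Fin 10 ⊕ Fin m) ∉ HH m j := by simp [HH]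
  -- the subgraph without the edge `vw`
  let e : Sym2 ((Fin 10 ⊕ Fin m) ⊕ {b : Fin 10 ⊕ Fin m // b ∉ HH m j}) :=
    s(inl (inl 1), inl (inl 2))
  have hadj12 : (GG m j hj).Adj (inl (inl 1)) (inl (inl 2)) := by
    refine GG_adj m j hj _ _ (by simp) (Or.inl ⟨inl 1, inl 2, ?_, rfl, rfl⟩)
    rw [SimpleGraph.deleteEdges_adj]
    refine ⟨show B.Adj 1 2 by exact (by decide : badj 1 2 = true), ?_⟩
    simp
  have hlt := hcrit ((⊤ : (GG m j hj).Subgraph).deleteEdges {e}) (by
    intro h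
    have h1 : (⊤ : (GG m j hj).Subgraph).Adj (inl (inl 1)) (inl (inl 2)) := hadj12
    rw [← h, SimpleGraph.Subgraph.deleteEdges_adj] at h1
    exact h1.2 rfl)
  have hcol : ((⊤ : (GG m j hj).Subgraph).deleteEdges {e}).coe.Colorable (4 + m) := by
    rw [← SimpleGraph.chromaticNumber_le_iff_colorable]
    refine Order.le_of_lt_add_one (lt_of_lt_of_le hlt ?_)
    norm_cast
  obtain ⟨C⟩ := hcol
  let c : (Fin 10 ⊕ Fin m) ⊕ {b : Fin 10 ⊕ Fin m // b ∉ HH m j} → Fin (4 + m) :=
    fun p => C ⟨p, trivial⟩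
  have hc : ∀ p q, (GG m j hj).Adj p q → s(p, q) ≠ e → c p ≠ c q := by
    intro p q hpq hne
    apply C.valid
    show ((⊤ : (GG m j hj).Subgraph).deleteEdges {e}).Adj p q
    rw [SimpleGraph.Subgraph.deleteEdges_adj]
    exact ⟨hpq, hne⟩
  -- first side
  have h1 := forcing_J m (fun a => c (inl a)) (by
    intro a a' haa h03 h12
    refine hc _ _ ?_ ?_
    · refine GG_adj m j hj _ _ (fun h => haa.ne (Sum.inl.inj h)) (Or.inl ⟨a, a', ?_, rfl, rfl⟩)
      rw [SimpleGraph.deleteEdges_adj]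
      exact ⟨haa, h03⟩
    · intro h
      apply h12
      rcases Sym2.eq_iff.1 h with ⟨h4, h5⟩ | ⟨h4, h5⟩
      · rw [Sum.inl.inj h4, Sum.inl.inj h5]
      · rw [Sum.inl.inj h4, Sum.inl.inj h5, Sym2.eq_swap])
  -- second side
  have hinj : Function.Injective (pl m j) := place_refl_inj (HH m j)
  have p0 : pl m j (inl 0) = inl (inl 0) := place_refl_mem _ _ m0
  have p1 : pl m j (inl 1) = inl (inl 1) := place_refl_mem _ _ m1
  have p2 : pl m j (inl 2) = inl (inl 2) := place_refl_mem _ _ m2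
  have p3 : pl m j (inl 3) = inr ⟨inl 3, m3⟩ := place_refl_notMem _ _ m3
  have h2 := forcing_J m (fun a => c (pl m j a)) (by
    intro a a' haa h03 h12
    refine hc _ _ ?_ ?_
    · refine GG_adj m j hj _ _ (fun h => haa.ne (hinj h)) (Or.inr (Or.inl ⟨a, a', ?_, rfl, rfl⟩))
      rw [SimpleGraph.deleteEdges_adj]
      exact ⟨haa, h03⟩
    · intro h
      apply h12
      rw [show e = s(pl m j (inl 1), pl m j (inl 2)) by rw [p1, p2]] at h
      rcases Sym2.eq_iff.1 h with ⟨h4, h5⟩ | ⟨h4, h5⟩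
      · rw [hinj h4, hinj h5]
      · rw [hinj h4, hinj h5, Sym2.eq_swap])
  simp only [p0, p1, p2, p3] at h2
  have hy : c (inl (inl 3)) ≠ c (inr ⟨inl 3, m3⟩) := by
    refine hc _ _ ?_ ?_
    · exact GG_adj m j hj _ _ (by simp) (Or.inr (Or.inr ⟨rfl, p3.symm⟩))
    · intro h
      rcases Sym2.eq_iff.1 h with ⟨_, h5⟩ | ⟨_, h5⟩
      · cases h5
      · cases h5
  by_cases hvw : c (inl (inl 1)) = c (inl (inl 2))
  · exact hy ((h1.2 hvw).trans (h2.2 hvw).symm)
  · exact hy ((h1.1 hvw).trans (h2.1 hvw).symm)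

/-- For all `k ≥ 5` and `3 ≤ h ≤ k - 2` there are data for Dirac's construction for which the
resulting graph is not `k`-critical. -/
theorem result : ∀ k h : ℕ, 5 ≤ k → 3 ≤ h → h ≤ k - 2 →
    ∃ D : DiracData k h, ¬ IsCritical D.glue k := by
  intro k h hk hh hhk
  obtain ⟨m, rfl⟩ : ∃ m, k = 4 + m + 1 := ⟨k - 5, by omega⟩
  obtain ⟨j, rfl⟩ : ∃ j, h = 3 + j := ⟨h - 3, by omega⟩
  exact ⟨data m j (by omega), not_critical m j (by omega)⟩

end Pool.Agent.Results.MP_e06427_co.DiracNotCritical
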